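import Pool.Agent.H90.CNY.Stmts

/-!
# Board `cny`, row YPP
-/

set_option autoImplicit false

namespace Pool.CND

theorem ypp_pow_mem {G : Type} [Group G] [Finite G] (W I : Subgroup G) (n : ℕ) (hWI : W ≤ I)
    (hN : ∀ g ∈ I, ∀ w ∈ W, g * w * g⁻¹ ∈ W) (hc : Nat.card I = n * Nat.card W) (g : G)
    (hg : g ∈ I) : g ^ n ∈ W := by
  have hnorm : (W.subgroupOf I).Normal := by
    constructor
    rintro ⟨w, hw⟩ hwW ⟨h, hh⟩
    rw [Subgroup.mem_subgroupOf] at hwW ⊢
    exact hN h hh w hwW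
  have hcard : Nat.card (W.subgroupOf I) = Nat.card W :=
    Nat.card_congr (Subgroup.subgroupOfEquivOfLe hWI).toEquiv
  have hidx := Subgroup.card_mul_index (W.subgroupOf I)
  rw [hcard, hc, mul_comm n] at hidx
  have hpos : 0 < Nat.card W := Nat.card_pos
  have hn : (W.subgroupOf I).index = n := Nat.eq_of_mul_eq_mul_left hpos hidx
  have h1 := Subgroup.pow_index_mem (W.subgroupOf I) (⟨g, hg⟩ : I)
  rw [hn, Subgroup.mem_subgroupOf] at h1
  exact h1

theorem ypp_mem {G : Type} [Group G] (W : Subgroup G) (x : G) (n q : ℕ) (hc : Nat.Coprime n q)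
    (h1 : x ^ n ∈ W) (h2 : x ^ q = 1) : x ∈ W := by
  have hb2 : (n : ℤ) * Nat.gcdA n q + (q : ℤ) * Nat.gcdB n q = 1 := by
    have := Nat.gcd_eq_gcd_ab n q
    rw [hc] at this
    exact_mod_cast this.symm
  have h3 : x = (x ^ n) ^ (Nat.gcdA n q) * (x ^ q) ^ (Nat.gcdB n q) := by
    rw [← zpow_natCast x n, ← zpow_natCast x q, ← zpow_mul, ← zpow_mul, ← zpow_add, hb2, zpow_one]
  rw [h3, h2, one_zpow, mul_one]
  exact Subgroup.zpow_mem _ h1 _

theorem ypp_thm : S_YPP := by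
  intro p G _ _ W I C n e hp hCW hWI _ hN hcI hpn hcen hy g hg w hw
  have ho : 0 < orderOf g := orderOf_pos g
  set a := (orderOf g).factorization p with ha
  set m := orderOf g / p ^ a with hm
  have hpm : p ^ a * m = orderOf g := Nat.ordProj_mul_ordCompl_eq_self _ _
  have hndvd : ¬ p ∣ m := Nat.not_dvd_ordCompl hp ho.ne'
  have hcop : Nat.Coprime (p ^ a) m := (Nat.coprime_ordCompl hp ho.ne').pow_left _
  have hcop2 : Nat.Coprime n (p ^ a) :=
    (Nat.Coprime.pow_right _ ((Nat.Prime.coprime_iff_not_dvd hp).2 hpn).symm)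
  have hbez : (p ^ a : ℕ) * Nat.gcdA (p ^ a) m + (m : ℤ) * Nat.gcdB (p ^ a) m = 1 := by
    have := Nat.gcd_eq_gcd_ab (p ^ a) m
    rw [hcop] at this
    exact_mod_cast this.symm
  set u : ℤ := Nat.gcdA (p ^ a) m
  set v : ℤ := Nat.gcdB (p ^ a) m
  set y : G := (g ^ (p ^ a)) ^ u with hy0
  set x : G := (g ^ m) ^ v with hx0
  have hgxy : g = x * y := by
    rw [hx0, hy0, ← zpow_natCast g m, ← zpow_natCast g (p ^ a), ← zpow_mul, ← zpow_mul, ← zpow_add,
      add_comm, hbez, zpow_one]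
  have hcomm : Commute x y := by
    rw [hx0, hy0]
    exact (((Commute.refl g).pow_pow _ _).zpow_zpow _ _)
  have hyI : y ∈ I := Subgroup.zpow_mem _ (Subgroup.pow_mem _ hg _) _
  have hxI : x ∈ I := Subgroup.zpow_mem _ (Subgroup.pow_mem _ hg _) _
  have hym : y ^ m = 1 := by
    rw [hy0, ← zpow_natCast, ← zpow_mul, mul_comm, zpow_mul, zpow_natCast, ← pow_mul, hpm,
      pow_orderOf_eq_one, one_zpow]
  have hxp : x ^ (p ^ a) = 1 := by
    rw [hx0, ← zpow_natCast, ← zpow_mul, mul_comm, zpow_mul, zpow_natCast, ← pow_mul, mul_comm m,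
      hpm, pow_orderOf_eq_one, one_zpow]
  have hyo : ¬ p ∣ orderOf y := fun h => hndvd (h.trans (orderOf_dvd_of_pow_eq_one hym))
  have hxn : x ^ n ∈ W := ypp_pow_mem W I n hWI hN hcI x hxI
  have hxW : x ∈ W := ypp_mem W x n (p ^ a) hcop2 hxn hxp
  have hxw : Commute x w := hcen x hxW w hw
  have hyw : Commute (y ^ e) w := hy y hyI hyo w hw
  have hge : g ^ e = x ^ e * y ^ e := by
    rw [hgxy, hcomm.mul_pow]
  rw [hge]
  exact ((hxw.pow_left e).mul_left hyw)

end Pool.CND
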